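import Pool.Agent.K3h71.PP.Defs

/-!
# Pencils of plane curves: the number of the irreducible factors of a member
-/

set_option autoImplicit false
set_option linter.all false
set_option maxHeartbeats 400000

namespace Pool.Agent.K3h25.PP

open Polynomial Pool.Agent.K3h82.CP Pool.Agent.K3h71.PP UniqueFactorizationMonoid

section
variable {M : Type} [Field M]

open Classical in
/-- the irreducible factors up to associates, as a finite set -/
noncomputable def cs (x : M[X][X]) : Finset (Associates M[X][X]) :=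
  ((factors x).map Associates.mk).toFinset

theorem mem_cs {x : M[X][X]} (hx : x ≠ 0) (p : Associates M[X][X]) :
    p ∈ cs x ↔ Irreducible p ∧ p ∣ Associates.mk x := by
  classical
  unfold cs
  rw [Multiset.mem_toFinset, Multiset.mem_map]
  constructor
  · rintro ⟨q, hq, rfl⟩
    rw [Associates.irreducible_mk, Associates.mk_dvd_mk]
    exact ⟨irreducible_of_factor q hq, dvd_of_mem_factors hq⟩
  · rintro ⟨hp, hpx⟩
    obtain ⟨q, rfl⟩ := Associates.mk_surjective p
    rw [Associates.irreducible_mk] at hp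
    rw [Associates.mk_dvd_mk] at hpx
    obtain ⟨t, ht, hqt⟩ := exists_mem_factors_of_dvd hx hp hpx
    exact ⟨t, ht, (Associates.mk_eq_mk_iff_associated.2 hqt).symm⟩

theorem mk_mem_cs {x : M[X][X]} (hx : x ≠ 0) (p : M[X][X]) :
    Associates.mk p ∈ cs x ↔ Irreducible p ∧ p ∣ x := by
  rw [mem_cs hx, Associates.irreducible_mk, Associates.mk_dvd_mk]

theorem card_cs {x : M[X][X]} (hx : x ≠ 0) : Nat.card (Cm x) = (cs x).card :=
  Nat.subtype_card _ fun p => mem_cs hx p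

theorem card_irr {x : M[X][X]} (hx : Irreducible x) : Nat.card (Cm x) = 1 := by
  rw [card_cs hx.ne_zero, Finset.card_eq_one]
  refine ⟨Associates.mk x, ?_⟩
  ext p
  obtain ⟨q, rfl⟩ := Associates.mk_surjective p
  rw [mk_mem_cs hx.ne_zero, Finset.mem_singleton, Associates.mk_eq_mk_iff_associated]
  constructor
  · rintro ⟨hq, hqx⟩
    exact hq.associated_of_dvd hx hqx
  · intro h
    exact ⟨h.symm.irreducible hx, h.dvd⟩

variable {A B : M[X][X]} {n : ℕ}

theorem mem_ne (hA : A.Monic) (hn : A.natDegree = n) (hBn : B.natDegree < n) {g : M[X]}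
    (hg : g ≠ 0) : mem A B g ≠ 0 := (hm_deg hA hn hBn hg).1

theorem mem_mul (hB : B ≠ 0) {g g' : M[X]} (hg : g ≠ 0) (hg' : g' ≠ 0) :
    mem A B (g * g') = mem A B g * mem A B g' := by
  unfold mem
  rw [natDegree_mul hg hg', sg_mul, hm_mul hB (sg_deg g).le (sg_deg g').le]

theorem mem_C (c : M) : mem A B (C c) = C (C c) := by
  unfold mem
  rw [natDegree_C, hm_zero]

theorem mem_dvd (hB : B ≠ 0) {g g' : M[X]} (hg' : g' ≠ 0) (h : g ∣ g') :
    mem A B g ∣ mem A B g' := by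
  obtain ⟨t, rfl⟩ := h
  rw [mem_mul hB (left_ne_zero_of_mul hg') (right_ne_zero_of_mul hg')]
  exact dvd_mul_right _ _

/-- an irreducible factor of `B` does not divide a member -/
theorem not_dvd_both (hco : ∀ p, Irreducible p → p ∣ A → p ∣ B → False) {p : M[X][X]}
    (hp : Irreducible p) (hpB : p ∣ B) {g : M[X]} (hg : g ≠ 0) : ¬ p ∣ mem A B g := by
  intro h
  have h1 := hm_dvd hp hpB (fun hpA => hco p hp hpA hpB) h
  exact hg (leadingCoeff_eq_zero.1 h1)

theorem hm_sum {a b : M[X][X]} (N : ℕ) (s t : M[X][X][X]) :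
    hm a b N (s + t) = hm a b N s + hm a b N t := by
  unfold hm
  rw [← Finset.sum_add_distrib]
  refine Finset.sum_congr rfl fun k _ => ?_
  rw [coeff_add]
  ring

/-- an irreducible polynomial does not divide two different members -/
theorem disj_mem (hB : B ≠ 0) (hco : ∀ p, Irreducible p → p ∣ A → p ∣ B → False) {p : M[X][X]}
    (hp : Irreducible p) {g g' : M[X]} (hg : g ≠ 0) (hg' : g' ≠ 0) (hgg : IsCoprime g g')
    (h : p ∣ mem A B g) (h' : p ∣ mem A B g') : False := by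
  obtain ⟨u, v, huv⟩ := hgg
  set N := max (u.natDegree + g.natDegree) (v.natDegree + g'.natDegree) with hN
  have key : ∀ (u g : M[X]), u.natDegree + g.natDegree ≤ N → p ∣ mem A B g →
      p ∣ hm (-A) B N (sg (u * g)) := by
    intro u g h1 h2
    obtain ⟨r, hr⟩ := Nat.exists_eq_add_of_le h1
    have h3 : hm (-A) B N (sg (u * g)) =
        B ^ r * (hm (-A) B u.natDegree (sg u) * mem A B g) := by
      rw [hr, hm_add, sg_mul, hm_mul hB (sg_deg u).le (sg_deg g).le]
      · rfl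
      · rw [sg_deg]
        exact natDegree_mul_le
    rw [h3]
    exact (h2.mul_left _).mul_left _
  have h1 : hm (-A) B N (sg (1 : M[X])) = B ^ N := by
    have h2 : hm (-A) B (0 + N) (sg (C (1 : M))) = B ^ N * hm (-A) B 0 (sg (C (1 : M))) :=
      hm_add (by rw [sg_deg, natDegree_C]) N
    rw [zero_add, hm_zero, C_1, C_1, mul_one] at h2
    exact h2
  have h2 : sg (1 : M[X]) = sg (u * g) + sg (v * g') := by
    rw [← huv]
    exact Polynomial.map_add _
  have h3 : p ∣ B ^ N := by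
    rw [← h1, h2, hm_sum]
    exact dvd_add (key u g (le_max_left _ _) h) (key v g' (le_max_right _ _) h')
  have h4 : p ∣ B := hp.prime.dvd_of_dvd_pow h3
  exact not_dvd_both hco hp h4 hg h

open Classical in
/-- the monic irreducible factors -/
noncomputable def ds (P : M[X]) : Finset M[X] := (normalizedFactors P).toFinset

theorem mem_ds {P : M[X]} (hP : P ≠ 0) (Φ : M[X]) :
    Φ ∈ ds P ↔ Φ.Monic ∧ Irreducible Φ ∧ Φ ∣ P := by
  classical
  unfold ds
  rw [Multiset.mem_toFinset, mem_normalizedFactors_iff' hP]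
  constructor
  · rintro ⟨h1, h2, h3⟩
    exact ⟨(Polynomial.normalize_eq_self_iff_monic h1.ne_zero).1 h2, h1, h3⟩
  · rintro ⟨h1, h2, h3⟩
    exact ⟨h2, (Polynomial.normalize_eq_self_iff_monic h2.ne_zero).2 h1, h3⟩

/-- a monic associate -/
theorem exists_monic {g : M[X]} (hg : g ≠ 0) : ∃ c : M, c ≠ 0 ∧ (C c * g).Monic :=
  ⟨g.leadingCoeff⁻¹, inv_ne_zero (leadingCoeff_ne_zero.2 hg), by
    rw [mul_comm]
    exact monic_mul_leadingCoeff_inv hg⟩

theorem isUnit_CC {c : M} (hc : c ≠ 0) : IsUnit (C (C c) : M[X][X]) :=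
  isUnit_C.2 (isUnit_C.2 (isUnit_iff_ne_zero.2 hc))

/-- an irreducible factor of a member divides an irreducible member -/
theorem exists_factor (hB : B ≠ 0) {p : M[X][X]} (hp : Irreducible p) (P : M[X]) (hP : P ≠ 0)
    (h : p ∣ mem A B P) : ∃ Φ ∈ ds P, p ∣ mem A B Φ := by
  induction P using WfDvdMonoid.induction_on_irreducible with
  | zero => exact (hP rfl).elim
  | unit u hu =>
    exfalso
    obtain ⟨c, hc, rfl⟩ := Polynomial.isUnit_iff.1 hu
    rw [mem_C] at h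
    exact hp.not_isUnit (isUnit_of_dvd_unit h (isUnit_CC hc.ne_zero))
  | mul a i ha hi ih =>
    rw [mem_mul hB hi.ne_zero ha] at h
    rcases hp.prime.dvd_or_dvd h with h1 | h1
    · obtain ⟨c, hc, hm⟩ := exists_monic hi.ne_zero
      have hu : IsUnit (C c : M[X]) := isUnit_C.2 (isUnit_iff_ne_zero.2 hc)
      refine ⟨C c * i, (mem_ds hP _).2 ⟨hm, ?_, ?_⟩, ?_⟩
      · exact (irreducible_isUnit_mul hu).2 hi
      · exact (hu.mul_left_dvd).2 (dvd_mul_right i a)
      · rw [mem_mul hB (C_ne_zero.2 hc) hi.ne_zero]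
        exact h1.mul_left _
    · obtain ⟨Φ, hΦ, hpΦ⟩ := ih ha h1
      rw [mem_ds ha] at hΦ
      exact ⟨Φ, (mem_ds hP _).2 ⟨hΦ.1, hΦ.2.1, hΦ.2.2.mul_left i⟩, hpΦ⟩

/-- the irreducible factors of a constant in `Y` -/
theorem card_cs_C {P : M[X]} (hP : P ≠ 0) : (cs (C P : M[X][X])).card = (ds P).card := by
  classical
  have hCP : (C P : M[X][X]) ≠ 0 := C_ne_zero.2 hP
  have h1 : cs (C P : M[X][X]) = (ds P).image fun Φ => Associates.mk (C Φ : M[X][X]) := by
    ext p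
    obtain ⟨q, rfl⟩ := Associates.mk_surjective p
    rw [mk_mem_cs hCP, Finset.mem_image]
    constructor
    · rintro ⟨hq, hqP⟩
      have h2 : q.natDegree = 0 := by
        have h3 := natDegree_le_of_dvd hqP hCP
        rw [natDegree_C] at h3
        omega
      obtain ⟨r, rfl⟩ : ∃ r : M[X], q = C r := ⟨q.coeff 0, eq_C_of_natDegree_eq_zero h2⟩
      have hr : Irreducible r := (Polynomial.prime_C_iff.1 hq.prime).irreducible
      have hrP : r ∣ P := by
        have h4 := (C_dvd_iff_dvd_coeff r (C P)).1 hqP 0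
        rwa [coeff_C_zero] at h4
      obtain ⟨c, hc, hm⟩ := exists_monic hr.ne_zero
      have hu : IsUnit (C c : M[X]) := isUnit_C.2 (isUnit_iff_ne_zero.2 hc)
      refine ⟨C c * r, (mem_ds hP _).2 ⟨hm, (irreducible_isUnit_mul hu).2 hr,
        (hu.mul_left_dvd).2 hrP⟩, ?_⟩
      rw [Associates.mk_eq_mk_iff_associated, C_mul]
      exact associated_unit_mul_left _ _ (isUnit_CC hc)
    · rintro ⟨Φ, hΦ, hq⟩
      rw [mem_ds hP] at hΦ
      rw [Associates.mk_eq_mk_iff_associated] at hq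
      refine ⟨hq.irreducible (Polynomial.prime_C_iff.2 hΦ.2.1.prime).irreducible, ?_⟩
      exact hq.symm.dvd.trans (_root_.map_dvd C hΦ.2.2)
  rw [h1, Finset.card_image_of_injOn]
  intro Φ hΦ Φ' hΦ' h
  rw [Finset.mem_coe, mem_ds hP] at hΦ hΦ'
  have h2 := Associates.mk_eq_mk_iff_associated.1 h
  have h3 : Associated Φ Φ' := by
    have h4 : ∀ a b : M[X], Associated (C a : M[X][X]) (C b) → a ∣ b := by
      intro a b hab
      have h5 := (C_dvd_iff_dvd_coeff a (C b)).1 hab.dvd 0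
      rwa [coeff_C_zero] at h5
    exact associated_of_dvd_dvd (h4 _ _ h2) (h4 _ _ h2.symm)
  exact eq_of_monic_of_associated hΦ.1 hΦ'.1 h3

/-- the irreducible factors of `B` times a member -/
theorem card_cs_mem (hA : A.Monic) (hn : A.natDegree = n) (hBn : B.natDegree < n) (hB : B ≠ 0)
    (hco : ∀ p, Irreducible p → p ∣ A → p ∣ B → False) {P : M[X]} (hP : P ≠ 0) :
    (cs (B * mem A B P)).card = (cs B).card + ∑ Φ ∈ ds P, (cs (mem A B Φ)).card := by
  classical
  have hm : mem A B P ≠ 0 := mem_ne hA hn hBn hP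
  have hne : ∀ Φ ∈ ds P, Φ ≠ 0 := fun Φ hΦ => ((mem_ds hP Φ).1 hΦ).2.1.ne_zero
  have h1 : cs (B * mem A B P) = cs B ∪ (ds P).biUnion fun Φ => cs (mem A B Φ) := by
    ext p
    obtain ⟨q, rfl⟩ := Associates.mk_surjective p
    rw [mk_mem_cs (mul_ne_zero hB hm), Finset.mem_union, mk_mem_cs hB, Finset.mem_biUnion]
    constructor
    · rintro ⟨hq, hqd⟩
      rcases hq.prime.dvd_or_dvd hqd with h2 | h2
      · exact Or.inl ⟨hq, h2⟩
      · obtain ⟨Φ, hΦ, hqΦ⟩ := exists_factor hB hq P hP h2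
        exact Or.inr ⟨Φ, hΦ, (mk_mem_cs (mem_ne hA hn hBn (hne Φ hΦ)) q).2 ⟨hq, hqΦ⟩⟩
    · rintro (⟨hq, h2⟩ | ⟨Φ, hΦ, h2⟩)
      · exact ⟨hq, h2.mul_right _⟩
      · rw [mk_mem_cs (mem_ne hA hn hBn (hne Φ hΦ))] at h2
        refine ⟨h2.1, (h2.2.trans (mem_dvd hB hP ?_)).mul_left _⟩
        exact ((mem_ds hP Φ).1 hΦ).2.2
  rw [h1, Finset.card_union_of_disjoint, Finset.card_biUnion]
  · intro Φ hΦ Φ' hΦ' hne'
    rw [Function.onFun, Finset.disjoint_left]
    intro p hp hp'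
    obtain ⟨q, rfl⟩ := Associates.mk_surjective p
    rw [mk_mem_cs (mem_ne hA hn hBn (hne Φ hΦ))] at hp
    rw [mk_mem_cs (mem_ne hA hn hBn (hne Φ' hΦ'))] at hp'
    have h2 := (mem_ds hP Φ).1 hΦ
    have h3 := (mem_ds hP Φ').1 hΦ'
    refine disj_mem hB hco hp.1 (hne Φ hΦ) (hne Φ' hΦ') ?_ hp.2 hp'.2
    refine (h2.2.1.isCoprime_or_dvd Φ').resolve_right fun h4 => hne' ?_
    exact eq_of_monic_of_associated h2.1 h3.1 (h2.2.1.associated_of_dvd h3.2.1 h4)
  · rw [Finset.disjoint_left]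
    intro p hp hp'
    obtain ⟨q, rfl⟩ := Associates.mk_surjective p
    rw [mk_mem_cs hB] at hp
    rw [Finset.mem_biUnion] at hp'
    obtain ⟨Φ, hΦ, h2⟩ := hp'
    rw [mk_mem_cs (mem_ne hA hn hBn (hne Φ hΦ))] at h2
    exact not_dvd_both hco hp.1 hp.2 (hne Φ hΦ) h2.2

end

theorem t_Card : StmCard := by
  intro M _ _ n A B P hA hn hBn hB hco hP hirr
  have hne : ∀ Φ ∈ ds P, Φ ≠ 0 := fun Φ hΦ => ((mem_ds hP Φ).1 hΦ).2.1.ne_zero
  have hsub : ∀ Φ : M[X], Φ.Monic → Irreducible Φ → Nat.card (Cm (mem A B Φ)) ≠ 1 → Φ ∈ ds P := by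
    intro Φ h1 h2 h3
    by_contra h4
    apply h3
    apply card_irr
    apply hirr Φ h2
    intro h5
    exact h4 ((mem_ds hP Φ).2 ⟨h1, h2, h5⟩)
  refine ⟨(ds P).finite_toSet.subset ?_, ?_⟩
  · rintro Φ ⟨h1, h2, h3⟩
    exact hsub Φ h1 h2 h3
  · have h1 : ∑ᶠ Φ : {Φ : M[X] // Φ.Monic ∧ Irreducible Φ},
        ((Nat.card (Cm (mem A B Φ.1)) : ℤ) - 1) =
        ∑ Φ ∈ ds P, ((Nat.card (Cm (mem A B Φ)) : ℤ) - 1) := by
      rw [finsum_subtype_eq_finsum_cond (f := fun Φ : M[X] => ((Nat.card (Cm (mem A B Φ)) : ℤ) - 1))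
        (fun Φ : M[X] => Φ.Monic ∧ Irreducible Φ)]
      refine finsum_mem_eq_sum_of_inter_support_eq
        (s := {Φ : M[X] | Φ.Monic ∧ Irreducible Φ})
        (fun Φ : M[X] => ((Nat.card (Cm (mem A B Φ)) : ℤ) - 1)) ?_
      ext Φ
      simp only [Set.mem_inter_iff, Function.mem_support, Finset.mem_coe]
      constructor
      · rintro ⟨⟨h2, h3⟩, h4⟩
        refine ⟨hsub Φ h2 h3 ?_, h4⟩
        intro h5
        rw [h5] at h4
        exact h4 (by norm_num)
      · rintro ⟨h2, h3⟩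
        rw [mem_ds hP] at h2
        exact ⟨⟨h2.1, h2.2.1⟩, h3⟩
    rw [h1, Finset.sum_sub_distrib, card_cs (mul_ne_zero hB (mem_ne hA hn hBn hP)),
      card_cs_mem hA hn hBn hB hco hP, card_cs (C_ne_zero.2 hP), card_cs_C hP, card_cs hB]
    have h2 : ∑ Φ ∈ ds P, (Nat.card (Cm (mem A B Φ)) : ℤ) =
        ((∑ Φ ∈ ds P, (cs (mem A B Φ)).card : ℕ) : ℤ) := by
      rw [Nat.cast_sum]
      refine Finset.sum_congr rfl fun Φ hΦ => ?_
      rw [card_cs (mem_ne hA hn hBn (hne Φ hΦ))]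
    rw [h2]
    simp only [Finset.sum_const, nsmul_eq_mul, mul_one]
    push_cast
    ring

end Pool.Agent.K3h25.PP
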